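import Pool.Agent.StarF.Main

/-!
# Star forests with small stars: packings of stars inside vertex sets
-/

set_option autoImplicit false

open Finset Pool.Agent.StarF

namespace Pool.Agent.StarM

variable {V : Type}

open Classical in
/-- Disjoint stars of `G` with the sizes `a i`, `i ∈ I`, inside `U`. -/
def Has (G : SimpleGraph V) (a : ℕ → ℕ) (I : Finset ℕ) (U : Finset V) : Prop :=
  ∃ (c : ℕ → V) (L : ℕ → Finset V), (∀ i ∈ I, insert (c i) (L i) ⊆ U ∧ (L i).card = a i ∧
    ∀ z ∈ L i, G.Adj (c i) z) ∧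
    ∀ i ∈ I, ∀ j ∈ I, i ≠ j → Disjoint (insert (c i) (L i)) (insert (c j) (L j))

open Classical in
/-- The degree of `v` inside `U`. -/
noncomputable def dg (H : SimpleGraph V) (U : Finset V) (v : V) : ℕ := (U.filter (H.Adj v)).card

open Classical in
lemma exists_dg (H : SimpleGraph V) (U : Finset V) (v : V) :
    ∃ A : Finset V, A.card = dg H U v ∧ ∀ z, z ∈ A ↔ z ∈ U ∧ H.Adj v z :=
  ⟨U.filter (H.Adj v), rfl, fun _ => mem_filter⟩

lemma Has.mono {G : SimpleGraph V} {a : ℕ → ℕ} {I : Finset ℕ} {U U' : Finset V}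
    (h : Has G a I U) (hU : U ⊆ U') : Has G a I U' := by
  obtain ⟨c, L, h1, h2⟩ := h
  exact ⟨c, L, fun i hi => ⟨(h1 i hi).1.trans hU, (h1 i hi).2⟩, h2⟩

lemma has_empty [Nonempty V] (G : SimpleGraph V) (a : ℕ → ℕ) (U : Finset V) : Has G a ∅ U :=
  ⟨fun _ => Classical.arbitrary V, fun _ => ∅, by simp, by simp⟩

open Classical in
lemma Has.union {G : SimpleGraph V} {a : ℕ → ℕ} {I I' : Finset ℕ} {U U' : Finset V}
    (h : Has G a I U) (h' : Has G a I' U') (hU : Disjoint U U') : Has G a (I ∪ I') (U ∪ U') := by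
  obtain ⟨c, L, h1, h2⟩ := h
  obtain ⟨c', L', h1', h2'⟩ := h'
  refine ⟨fun i => if i ∈ I then c i else c' i, fun i => if i ∈ I then L i else L' i, ?_, ?_⟩
  · intro i hi
    by_cases hiI : i ∈ I
    · simp only [if_pos hiI]
      exact ⟨(h1 i hiI).1.trans subset_union_left, (h1 i hiI).2⟩
    · have hi' : i ∈ I' := by
        rcases mem_union.1 hi with h | h
        · exact absurd h hiI
        · exact h
      simp only [if_neg hiI]
      exact ⟨(h1' i hi').1.trans subset_union_right, (h1' i hi').2⟩
  · intro i hi j hj hij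
    by_cases hiI : i ∈ I
    · by_cases hjI : j ∈ I
      · simp only [if_pos hiI, if_pos hjI]
        exact h2 i hiI j hjI hij
      · have hj' : j ∈ I' := by
          rcases mem_union.1 hj with h | h
          · exact absurd h hjI
          · exact h
        simp only [if_pos hiI, if_neg hjI]
        exact Disjoint.mono (h1 i hiI).1 (h1' j hj').1 hU
    · have hi' : i ∈ I' := by
        rcases mem_union.1 hi with h | h
        · exact absurd h hiI
        · exact h
      by_cases hjI : j ∈ I
      · simp only [if_neg hiI, if_pos hjI]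
        exact (Disjoint.mono (h1 j hjI).1 (h1' i hi').1 hU).symm
      · have hj' : j ∈ I' := by
          rcases mem_union.1 hj with h | h
          · exact absurd h hjI
          · exact h
        simp only [if_neg hiI, if_neg hjI]
        exact h2' i hi' j hj' hij

open Classical in
lemma has_single (G : SimpleGraph V) (a : ℕ → ℕ) (i : ℕ) (v : V) (L : Finset V)
    (hL : L.card = a i) (hadj : ∀ z ∈ L, G.Adj v z) : Has G a {i} (insert v L) := by
  refine ⟨fun _ => v, fun _ => L, ?_, ?_⟩
  · intro j hj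
    rw [mem_singleton] at hj
    subst hj
    exact ⟨Subset.rfl, hL, hadj⟩
  · intro j hj k hk hjk
    rw [mem_singleton] at hj hk
    exact absurd (hj.trans hk.symm) hjk

open Classical in
/-- A vertex of large degree is the centre of one more star. -/
lemma Has.huge {G : SimpleGraph V} {a : ℕ → ℕ} {I : Finset ℕ} {U : Finset V} {i0 : ℕ} {v : V}
    (hv : v ∈ U) (h : Has G a I (U.erase v))
    (hd : ∑ i ∈ I, a i + I.card + a i0 ≤ dg G U v) :
    Has G a (insert i0 I) U := by
  unfold dg at hd
  obtain ⟨c, L, h1, h2⟩ := h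
  set X : Finset V := I.biUnion (fun i => insert (c i) (L i)) with hX
  have hXc : X.card ≤ ∑ i ∈ I, a i + I.card := by
    calc X.card ≤ ∑ i ∈ I, (insert (c i) (L i)).card := card_biUnion_le
      _ ≤ ∑ i ∈ I, (a i + 1) := by
          apply sum_le_sum
          intro i hi
          rw [← (h1 i hi).2.1]
          exact card_insert_le _ _
      _ = ∑ i ∈ I, a i + I.card := by rw [sum_add_distrib, card_eq_sum_ones]
  have hXU : X ⊆ U.erase v := by
    intro w hw
    rw [hX, mem_biUnion] at hw
    obtain ⟨i, hi, hw⟩ := hw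
    exact (h1 i hi).1 hw
  have h3 : a i0 ≤ (U.filter (G.Adj v) \ X).card := by
    have := le_card_sdiff X (U.filter (G.Adj v))
    omega
  obtain ⟨L0, hL0, hL0c⟩ := exists_subset_card_eq h3
  have h4 : Has G a {i0} (insert v L0) := by
    apply has_single G a i0 v L0 hL0c
    intro z hz
    exact (mem_filter.1 (mem_sdiff.1 (hL0 hz)).1).2
  have h5 : Has G a I X := by
    refine ⟨c, L, fun i hi => ⟨?_, (h1 i hi).2⟩, h2⟩
    exact subset_biUnion_of_mem (fun i => insert (c i) (L i)) hi
  have h6 : Disjoint (insert v L0) X := by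
    rw [Finset.disjoint_left]
    intro w hw hwX
    rcases mem_insert.1 hw with rfl | hw
    · exact (notMem_erase w U) (hXU hwX)
    · exact (mem_sdiff.1 (hL0 hw)).2 hwX
  rw [insert_eq]
  apply (h4.union h5 h6).mono
  intro w hw
  rcases mem_union.1 hw with hw | hw
  · rcases mem_insert.1 hw with rfl | hw
    · exact hv
    · exact (mem_filter.1 (mem_sdiff.1 (hL0 hw)).1).1
  · exact mem_of_mem_erase (hXU hw)

lemma Has.contained [Fintype V] {G : SimpleGraph V} {a : ℕ → ℕ} {k : ℕ}
    (h : Has G a (range k) univ) : (starForest (fun i : Fin k => a i)).IsContained G := by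
  classical
  obtain ⟨c, L, h1, h2⟩ := h
  have hmem : ∀ i : Fin k, (i : ℕ) ∈ range k := fun i => mem_range.2 i.2
  let f : ∀ i : Fin k, Fin (a i) → V := fun i x =>
    (((L i).equivFinOfCardEq (h1 i (hmem i)).2.1).symm x : V)
  have hfD : ∀ (i : Fin k) (x : Fin (a i)), f i x ∈ L i := fun i x => Subtype.property _
  have hdis : ∀ i j : Fin k, i ≠ j → ∀ w, w ∈ insert (c i) (L i) → w ∉ insert (c j) (L j) := by
    intro i j hij w hw hw'
    have h3 := h2 i (hmem i) j (hmem j) (fun h => hij (Fin.ext h))
    rw [Finset.disjoint_left] at h3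
    apply @h3 w
    · convert hw
    · convert hw'
  apply contained_of (fun i : Fin k => a i) (fun i => c i) f
  · intro i j hij
    by_contra hne
    apply hdis i j hne (c i) (mem_insert_self _ _)
    have : c i = c j := hij
    rw [this]
    exact mem_insert_self _ _
  · intro i x j y hxy
    by_cases hij : i = j
    · subst hij
      have h3 : ((L i).equivFinOfCardEq (h1 i (hmem i)).2.1).symm x =
        ((L i).equivFinOfCardEq (h1 i (hmem i)).2.1).symm y := Subtype.ext hxy
      rw [((L i).equivFinOfCardEq (h1 i (hmem i)).2.1).symm.injective h3]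
    · exfalso
      apply hdis i j hij (f i x) (mem_insert_of_mem (hfD i x))
      rw [hxy]
      exact mem_insert_of_mem (hfD j y)
  · intro i x j hx
    by_cases hij : i = j
    · subst hij
      have h3 := (h1 i (hmem i)).2.2 _ (hfD i x)
      rw [hx] at h3
      exact G.irrefl h3
    · apply hdis i j hij (f i x) (mem_insert_of_mem (hfD i x))
      rw [hx]
      exact mem_insert_self _ _
  · intro i x
    exact (h1 i (hmem i)).2.2 _ (hfD i x)

open Classical in
/-- Hall's theorem gives the leaves. -/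
lemma has_of_hall {G : SimpleGraph V} {a : ℕ → ℕ} {I : Finset ℕ} {U : Finset V} (c : ℕ → V)
    (hc : Set.InjOn c I) (hcU : ∀ i ∈ I, c i ∈ U)
    (h : ∀ J ⊆ I, J.Nonempty → ∑ t ∈ J, a t ≤
      ((U \ I.image c).filter (fun w => ∃ t ∈ J, G.Adj (c t) w)).card) : Has G a I U := by
  obtain ⟨D, hD, hdisj⟩ := hall I a (fun t => (U \ I.image c).filter (fun w => G.Adj (c t) w)) (by
    intro J hJ
    rcases J.eq_empty_or_nonempty with rfl | hne
    · simp
    · have h1 := h J hJ hne
      have h2 : J.biUnion (fun t => (U \ I.image c).filter (fun w => G.Adj (c t) w)) =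
          (U \ I.image c).filter (fun w => ∃ t ∈ J, G.Adj (c t) w) := by
        ext w
        simp only [mem_biUnion, mem_filter]
        constructor
        · rintro ⟨t, ht, h3, h4⟩
          exact ⟨h3, t, ht, h4⟩
        · rintro ⟨h3, t, ht, h4⟩
          exact ⟨t, ht, h3, h4⟩
      rw [h2]
      exact h1)
  refine ⟨c, D, ?_, ?_⟩
  · intro i hi
    refine ⟨?_, (hD i hi).2, ?_⟩
    · intro w hw
      rcases mem_insert.1 hw with rfl | hw
      · exact hcU i hi
      · exact (mem_sdiff.1 (mem_filter.1 ((hD i hi).1 hw)).1).1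
    · intro z hz
      exact (mem_filter.1 ((hD i hi).1 hz)).2
  · intro i hi j hj hij
    have hcD : ∀ s ∈ I, ∀ t ∈ I, c s ∉ D t := by
      intro s hs t ht h3
      exact (mem_sdiff.1 (mem_filter.1 ((hD t ht).1 h3)).1).2 (mem_image_of_mem _ hs)
    rw [Finset.disjoint_left]
    intro w hw hw'
    rcases mem_insert.1 hw with rfl | hw
    · rcases mem_insert.1 hw' with h3 | hw'
      · exact hij (hc (mem_coe.2 hi) (mem_coe.2 hj) h3)
      · exact hcD i hi j hj hw'
    · rcases mem_insert.1 hw' with rfl | hw'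
      · exact hcD j hj i hi hw
      · exact Finset.disjoint_left.1 (hdisj i hi j hj hij) hw hw'

/-- An injective choice of centres. -/
lemma exists_centres [Nonempty V] (I : Finset ℕ) (U : Finset V) (h : I.card ≤ U.card) :
    ∃ c : ℕ → V, Set.InjOn c I ∧ ∀ i ∈ I, c i ∈ U := by
  classical
  obtain ⟨f⟩ : Nonempty (I ↪ U) := by
    apply Function.Embedding.nonempty_of_card_le
    rw [Fintype.card_coe, Fintype.card_coe]
    exact h
  refine ⟨fun i => if hi : i ∈ I then (f ⟨i, hi⟩ : V) else Classical.arbitrary V, ?_, ?_⟩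
  · intro i hi j hj hij
    rw [mem_coe] at hi hj
    simp only [dif_pos hi, dif_pos hj] at hij
    have h1 := f.injective (Subtype.ext hij)
    rw [Subtype.mk.injEq] at h1
    exact h1
  · intro i hi
    simp only [dif_pos hi]
    exact Subtype.property _

open Classical in
/-- Many small stars: any centres are good. -/
lemma sparse [Nonempty V] (G H : SimpleGraph V) (hGH : ∀ v w, v ≠ w → ¬ G.Adj v w → H.Adj v w)
    (U : Finset V) (J : Finset ℕ) (b : ℕ → ℕ)
    (P S : ℕ) (hb : ∀ j ∈ J, 1 ≤ b j) (hd : ∀ v ∈ U, dg H U v + 2 ≤ P + S)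
    (hN : J.card + ∑ j ∈ J, b j + P ≤ U.card + 1) (hP : 1 ≤ P) (hq : P + 2 * S ≤ J.card) :
    Has G b J U := by
  unfold dg at hd
  obtain ⟨c, hc, hcU⟩ := exists_centres J U (by omega)
  apply has_of_hall c hc hcU
  intro J' hJ' hne
  set C := J.image c with hC
  have hCU : C ⊆ U := by
    intro w hw
    rw [hC, mem_image] at hw
    obtain ⟨i, hi, rfl⟩ := hw
    exact hcU i hi
  have hCc : C.card = J.card := card_image_of_injOn hc
  have hUC : (U \ C).card = U.card - J.card := by
    rw [card_sdiff_of_subset hCU, hCc]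
  have hcompl : ∀ w ∈ U \ C, ∀ t ∈ J, ¬ G.Adj (c t) w → H.Adj (c t) w := by
    intro w hw t ht h1
    refine hGH _ _ ?_ h1
    rintro rfl
    exact (mem_sdiff.1 hw).2 (mem_image_of_mem _ ht)
  have hsum : ∑ t ∈ J', b t + (J.card - J'.card) ≤ ∑ t ∈ J, b t := by
    have h1 : ∑ t ∈ J \ J', b t + ∑ t ∈ J', b t = ∑ t ∈ J, b t := sum_sdiff hJ'
    have h2 : (J \ J').card ≤ ∑ t ∈ J \ J', b t := by
      rw [card_eq_sum_ones]
      apply sum_le_sum
      intro t ht
      exact hb t (mem_sdiff.1 ht).1
    rw [card_sdiff_of_subset hJ'] at h2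
    omega
  by_cases hbig : P + S ≤ J'.card + 1
  · have h1 : (U \ C).filter (fun w => ∃ t ∈ J', G.Adj (c t) w) = U \ C := by
      apply filter_true_of_mem
      intro w hw
      by_contra hcon
      push Not at hcon
      have h2 : J'.image c ⊆ U.filter (H.Adj w) := by
        intro z hz
        rw [mem_image] at hz
        obtain ⟨t, ht, rfl⟩ := hz
        rw [mem_filter]
        exact ⟨hcU t (hJ' ht), (hcompl w hw t (hJ' ht) (hcon t ht)).symm⟩
      have h3 := card_le_card h2
      rw [card_image_of_injOn (hc.mono (coe_subset.2 hJ'))] at h3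
      have h4 := hd w (mem_sdiff.1 hw).1
      omega
    rw [h1, hUC]
    omega
  · obtain ⟨t, ht⟩ := hne
    have h1 : (U \ C) \ U.filter (H.Adj (c t)) ⊆
        (U \ C).filter (fun w => ∃ t ∈ J', G.Adj (c t) w) := by
      intro w hw
      rw [mem_sdiff, mem_filter] at hw
      obtain ⟨h2, h3⟩ := hw
      rw [mem_filter]
      refine ⟨h2, t, ht, ?_⟩
      by_contra h4
      exact h3 ⟨(mem_sdiff.1 h2).1, hcompl w h2 t (hJ' ht) h4⟩
    have h2 := card_le_card h1
    have h3 := le_card_sdiff (U.filter (H.Adj (c t))) (U \ C)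
    have h4 := hd (c t) (hcU t (hJ' ht))
    omega

end Pool.Agent.StarM
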