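import Pool.Agent.StarM.Main

/-!
# Star forests with small stars: both bounds
-/

set_option autoImplicit false

open Finset Pool.Agent.StarF Pool.Agent.StarF2

namespace Pool.Agent.StarM

/-- Every star of a copy contains a vertex of every vertex cover. -/
lemma no_copy (k p : ℕ) (hp : p < k) (a : ℕ → ℕ) (ha : ∀ t < k, 1 ≤ a t) (W : Type) :
    ¬ (starForest (fun i : Fin k => a i)).IsContained (full p (⊥ : SimpleGraph W)) := by
  rintro ⟨φ⟩
  have h1 : ∀ i : Fin k, ∃ (e : Option (Fin (a i))) (g : Fin p), φ ⟨i, e⟩ = Sum.inl g := by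
    intro i
    have h2 := φ.toHom.map_adj (star_adj (fun i : Fin k => a i) i ⟨0, ha i i.2⟩)
    have h3 : (full p (⊥ : SimpleGraph W)).Adj (φ ⟨i, none⟩) (φ ⟨i, some ⟨0, ha i i.2⟩⟩) := h2
    rcases h4 : φ ⟨i, none⟩ with g | y
    · exact ⟨none, g, h4⟩
    · rcases h5 : φ ⟨i, some ⟨0, ha i i.2⟩⟩ with g | z
      · exact ⟨_, g, h5⟩
      · rw [h4, h5] at h3
        exact absurd h3 (by simp [full])
  choose e g hg using h1
  have hinj : Function.Injective g := by
    intro i j hij
    have h2 : φ ⟨i, e i⟩ = φ ⟨j, e j⟩ := by rw [hg, hg, hij]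
    have h3 := φ.injective h2
    rw [Sigma.mk.injEq] at h3
    exact h3.1
  have h2 := Fintype.card_le_of_injective g hinj
  rw [Fintype.card_fin, Fintype.card_fin] at h2
  omega

/-- **Exact values for star forests with small stars.** -/
theorem exact_value (D k l : ℕ) (hk : 1 ≤ k) (hl : 1 ≤ l) (a b : ℕ → ℕ)
    (ha : ∀ t < k, 1 ≤ a t ∧ a t ≤ D) (hb : ∀ t < l, 1 ≤ b t ∧ b t ≤ D)
    (hbig : 96 * D ^ 4 * (D + 1) ^ 4 ≤ max (∑ t ∈ range k, a t) (∑ t ∈ range l, b t)) :
    ramsey (starForest (fun i : Fin k => a i)) (starForest (fun j : Fin l => b j)) + 1 =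
      k + l + max (∑ t ∈ range k, a t) (∑ t ∈ range l, b t) := by
  have hD : 1 ≤ D := (ha 0 hk).1.trans (ha 0 hk).2
  set M := max (∑ t ∈ range k, a t) (∑ t ∈ range l, b t) with hM
  -- the upper bound
  have hup : ∀ G : SimpleGraph (Fin (k + l + M - 1)),
      (starForest (fun i : Fin k => a i)).IsContained G ∨
        (starForest (fun j : Fin l => b j)).IsContained Gᶜ := by
    intro G
    have : Nonempty (Fin (k + l + M - 1)) := ⟨⟨0, by omega⟩⟩
    rcases upper D hD G a b (k + l) (range k) (range l) univ 0 (by simp)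
      (fun i hi => ha i (mem_range.1 hi)) (fun j hj => hb j (mem_range.1 hj))
      (by rw [card_univ, Fintype.card_fin, card_range, card_range]; omega)
      (by
        have h1 : 2 * D ^ 2 * (48 * D ^ 2 * (D + 1) ^ 4) = 96 * D ^ 4 * (D + 1) ^ 4 := by ring
        rw [h1]
        omega) with h | h
    · exact Or.inl h.contained
    · exact Or.inr h.contained
  have h1 := ramsey_le _ _ _ hup
  -- the lower bounds
  have h2 : k - 1 + (l + ∑ t ∈ range l, b t - 1) <
      ramsey (starForest (fun i : Fin k => a i)) (starForest (fun j : Fin l => b j)) := by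
    have h3 := ramsey_gt (starForest (fun i : Fin k => a i)) (starForest (fun j : Fin l => b j))
      (full (k - 1) (⊥ : SimpleGraph (Fin (l + ∑ t ∈ range l, b t - 1))))
      (no_copy k (k - 1) (by omega) a (fun t ht => (ha t ht).1) _)
      (full_no_blue_small _ l (k - 1) b (fun t ht => (hb t ht).1)
        (by rw [Fintype.card_fin]; omega)) ⟨_, hup⟩
    rwa [Fintype.card_sum, Fintype.card_fin, Fintype.card_fin] at h3
  have h4 : l - 1 + (k + ∑ t ∈ range k, a t - 1) <
      ramsey (starForest (fun i : Fin k => a i)) (starForest (fun j : Fin l => b j)) := by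
    have h3 := ramsey_gt (starForest (fun i : Fin k => a i)) (starForest (fun j : Fin l => b j))
      (full (l - 1) (⊥ : SimpleGraph (Fin (k + ∑ t ∈ range k, a t - 1))))ᶜ
      (full_no_blue_small _ k (l - 1) a (fun t ht => (ha t ht).1)
        (by rw [Fintype.card_fin]; omega))
      (by
        rw [compl_compl]
        exact no_copy l (l - 1) (by omega) b (fun t ht => (hb t ht).1) _) ⟨_, hup⟩
    rwa [Fintype.card_sum, Fintype.card_fin, Fintype.card_fin] at h3
  omega

end Pool.Agent.StarM
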