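import Pool.Agent.StarM.Seq
import Pool.Agent.StarF2.Lower

/-!
# Star forests with small stars: the theorem
-/

set_option autoImplicit false

open Finset Pool.Agent.StarF

namespace Pool.Agent.StarM

section Upper

variable {V : Type}

open Classical in
lemma deg_add (G : SimpleGraph V) (U : Finset V) (v : V) (hv : v ∈ U) :
    dg G U v + dg Gᶜ U v + 1 = U.card := by
  have key : ∀ A B : Finset V, (∀ z, z ∈ A ↔ z ∈ U ∧ G.Adj v z) →
      (∀ z, z ∈ B ↔ z ∈ U ∧ Gᶜ.Adj v z) → A.card + B.card + 1 = U.card := by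
    intro A B hA hB
    have h1 : Disjoint A B := by
      rw [Finset.disjoint_left]
      intro z hz hz'
      exact ((SimpleGraph.compl_adj _ _ _).1 ((hB z).1 hz').2).2 ((hA z).1 hz).2
    have h2 : v ∉ A ∪ B := by
      rw [mem_union, hA, hB]
      rintro (h | h)
      · exact G.irrefl h.2
      · exact Gᶜ.irrefl h.2
    have h3 : insert v (A ∪ B) = U := by
      ext z
      rw [mem_insert, mem_union, hA, hB, SimpleGraph.compl_adj]
      constructor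
      · rintro (rfl | h | h)
        · exact hv
        · exact h.1
        · exact h.1
      · intro hz
        by_cases hzv : z = v
        · exact Or.inl hzv
        · right
          by_cases hadj : G.Adj v z
          · exact Or.inl ⟨hz, hadj⟩
          · exact Or.inr ⟨hz, Ne.symm hzv, hadj⟩
    rw [← h3, card_insert_of_notMem h2, card_union_of_disjoint h1]
  obtain ⟨A, hA, hA'⟩ := exists_dg G U v
  obtain ⟨B, hB, hB'⟩ := exists_dg Gᶜ U v
  rw [← hA, ← hB]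
  exact key A B hA' hB'

open Classical in
/-- A popular size. -/
lemma popular (I : Finset ℕ) (a : ℕ → ℕ) (D n : ℕ) (ha : ∀ i ∈ I, 1 ≤ a i ∧ a i ≤ D)
    (hD : 1 ≤ D) (hn : D * n ≤ I.card) :
    ∃ a₀, 1 ≤ a₀ ∧ a₀ ≤ D ∧ n ≤ (I.filter (fun i => a i = a₀)).card := by
  obtain ⟨a₀, h1, h2⟩ := exists_le_card_fiber_of_mul_le_card_of_maps_to (s := I)
    (t := Icc 1 D) (f := a) (n := n) (fun i hi => mem_Icc.2 (ha i hi)) ⟨1, by simp [hD]⟩
    (by simpa using hn)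
  rw [mem_Icc] at h1
  exact ⟨a₀, h1.1, h1.2, by convert h2⟩

open Classical in
/-- The induction. -/
theorem upper [Nonempty V] (D : ℕ) (hD : 1 ≤ D) (G : SimpleGraph V) (a b : ℕ → ℕ) (s : ℕ) :
    ∀ (I J : Finset ℕ) (U : Finset V) (e : ℕ), I.card + J.card = s →
      (∀ i ∈ I, 1 ≤ a i ∧ a i ≤ D) → (∀ j ∈ J, 1 ≤ b j ∧ b j ≤ D) →
      U.card + 1 = I.card + J.card + max (∑ i ∈ I, a i) (∑ j ∈ J, b j) + e →
      2 * D ^ 2 * (48 * D ^ 2 * (D + 1) ^ 4) ≤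
        2 * D ^ 2 * e + max (∑ i ∈ I, a i) (∑ j ∈ J, b j) →
      Has G a I U ∨ Has Gᶜ b J U := by
  induction s using Nat.strong_induction_on with
  | _ s ih =>
  intro I J U e hs ha hb hU he
  rcases I.eq_empty_or_nonempty with rfl | hI
  · exact Or.inl (has_empty G a U)
  rcases J.eq_empty_or_nonempty with rfl | hJ
  · exact Or.inr (has_empty Gᶜ b U)
  have hI1 : 1 ≤ I.card := card_pos.2 hI
  have hJ1 : 1 ≤ J.card := card_pos.2 hJ
  have hD2 : 1 ≤ D ^ 2 := Nat.one_le_pow _ _ hD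
  have pot : ∀ M M' : ℕ, M' ≤ M → 2 * D ^ 2 * e + M ≤ 2 * D ^ 2 * (e + (M - M')) + M' := by
    intro M M' h
    obtain ⟨d, rfl⟩ : ∃ d, M = M' + d := ⟨M - M', by omega⟩
    rw [Nat.add_sub_cancel_left]
    have : d ≤ 2 * D ^ 2 * d := Nat.le_mul_of_pos_left d (by omega)
    have h2 : 2 * D ^ 2 * (e + d) = 2 * D ^ 2 * e + 2 * D ^ 2 * d := by ring
    omega
  -- a huge red vertex
  by_cases hA : ∃ v ∈ U, I.card + ∑ i ∈ I, a i ≤ dg G U v + 1
  · obtain ⟨v, hv, hdv⟩ := hA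
    obtain ⟨i0, hi0⟩ := hI
    have h1 : (I.erase i0).card + 1 = I.card := card_erase_add_one hi0
    have h2 : ∑ i ∈ I.erase i0, a i + a i0 = ∑ i ∈ I, a i := sum_erase_add I a hi0
    have h3 : (U.erase v).card + 1 = U.card := card_erase_add_one hv
    have h4 : max (∑ i ∈ I.erase i0, a i) (∑ j ∈ J, b j) ≤
        max (∑ i ∈ I, a i) (∑ j ∈ J, b j) := max_le_max_right _ (by omega)
    have h5 := pot _ _ h4
    rcases ih ((I.erase i0).card + J.card) (by omega) (I.erase i0) J (U.erase v)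
      (e + (max (∑ i ∈ I, a i) (∑ j ∈ J, b j) -
        max (∑ i ∈ I.erase i0, a i) (∑ j ∈ J, b j))) rfl
      (fun i hi => ha i (mem_of_mem_erase hi)) hb (by omega) (by omega) with h | h
    · left
      have h6 := Has.huge (i0 := i0) hv h (by omega)
      rwa [insert_erase hi0] at h6
    · right
      exact h.mono (erase_subset _ _)
  -- a huge blue vertex
  by_cases hB : ∃ v ∈ U, J.card + ∑ j ∈ J, b j ≤ dg Gᶜ U v + 1
  · obtain ⟨v, hv, hdv⟩ := hB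
    obtain ⟨j0, hj0⟩ := hJ
    have h1 : (J.erase j0).card + 1 = J.card := card_erase_add_one hj0
    have h2 : ∑ j ∈ J.erase j0, b j + b j0 = ∑ j ∈ J, b j := sum_erase_add J b hj0
    have h3 : (U.erase v).card + 1 = U.card := card_erase_add_one hv
    have h4 : max (∑ i ∈ I, a i) (∑ j ∈ J.erase j0, b j) ≤
        max (∑ i ∈ I, a i) (∑ j ∈ J, b j) := max_le_max_left _ (by omega)
    have h5 := pot _ _ h4
    rcases ih (I.card + (J.erase j0).card) (by omega) I (J.erase j0) (U.erase v)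
      (e + (max (∑ i ∈ I, a i) (∑ j ∈ J, b j) -
        max (∑ i ∈ I, a i) (∑ j ∈ J.erase j0, b j))) rfl
      ha (fun j hj => hb j (mem_of_mem_erase hj)) (by omega) (by omega) with h | h
    · left
      exact h.mono (erase_subset _ _)
    · right
      have h6 := Has.huge (i0 := j0) hv h (by omega)
      rwa [insert_erase hj0] at h6
  push Not at hA hB
  have hGc : ∀ v w : V, v ≠ w → ¬ Gᶜ.Adj v w → G.Adj v w := by
    intro v w h1 h2
    by_contra h3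
    exact h2 ((SimpleGraph.compl_adj _ _ _).2 ⟨h1, h3⟩)
  have hGc' : ∀ v w : V, v ≠ w → ¬ G.Adj v w → Gᶜ.Adj v w := by
    intro v w h1 h2
    exact (SimpleGraph.compl_adj _ _ _).2 ⟨h1, h2⟩
  have hmax1 := le_max_left (∑ i ∈ I, a i) (∑ j ∈ J, b j)
  have hmax2 := le_max_right (∑ i ∈ I, a i) (∑ j ∈ J, b j)
  -- many blue stars
  by_cases hC : I.card + 2 * ∑ i ∈ I, a i ≤ J.card
  · right
    exact sparse Gᶜ G hGc U J b I.card (∑ i ∈ I, a i) (fun j hj => (hb j hj).1)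
      (fun v hv => by have := hA v hv; omega) (by omega) hI1 hC
  -- many red stars
  by_cases hC' : J.card + 2 * ∑ j ∈ J, b j ≤ I.card
  · left
    exact sparse G Gᶜ hGc' U I a J.card (∑ j ∈ J, b j) (fun i hi => (ha i hi).1)
      (fun v hv => by have := hB v hv; omega) (by omega) hJ1 hC'
  push Not at hC hC'
  -- the dense case
  set p := I.card with hp
  set q := J.card with hq
  set S₁ := ∑ i ∈ I, a i with hS₁
  set S₂ := ∑ j ∈ J, b j with hS₂
  have hS₁D : S₁ ≤ p * D := by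
    rw [hS₁, hp, ← smul_eq_mul, ← sum_const]
    exact sum_le_sum fun i hi => (ha i hi).2
  have hS₂D : S₂ ≤ q * D := by
    rw [hS₂, hq, ← smul_eq_mul, ← sum_const]
    exact sum_le_sum fun j hj => (hb j hj).2
  have hNbig : 48 * D ^ 2 * (D + 1) ^ 4 ≤ U.card := by
    have h1 : 2 * D ^ 2 * (48 * D ^ 2 * (D + 1) ^ 4) + 2 * D ^ 2 ≤ 2 * D ^ 2 * (U.card + 1) := by
      rw [hU]
      have h2 : max S₁ S₂ ≤ 2 * D ^ 2 * max S₁ S₂ := Nat.le_mul_of_pos_left _ (by omega)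
      have h3 : 2 * D ^ 2 ≤ 2 * D ^ 2 * (p + q) := Nat.le_mul_of_pos_right _ (by omega)
      have h4 : 2 * D ^ 2 * (p + q + max S₁ S₂ + e) =
          2 * D ^ 2 * (p + q) + 2 * D ^ 2 * max S₁ S₂ + 2 * D ^ 2 * e := by ring
      omega
    have h2 : 2 * D ^ 2 * (48 * D ^ 2 * (D + 1) ^ 4 + 1) ≤ 2 * D ^ 2 * (U.card + 1) := by
      have h3 : 2 * D ^ 2 * (48 * D ^ 2 * (D + 1) ^ 4 + 1) =
        2 * D ^ 2 * (48 * D ^ 2 * (D + 1) ^ 4) + 2 * D ^ 2 := by ring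
      omega
    have h3 := Nat.le_of_mul_le_mul_left h2 (by omega)
    omega
  have hUne : U.Nonempty := by
    rw [← card_pos]
    have h1 : 1 ≤ (D + 1) ^ 4 := Nat.one_le_pow _ _ (by omega)
    have h2 : 1 ≤ D ^ 2 * (D + 1) ^ 4 := Nat.mul_le_mul hD2 h1
    have h3 : 48 * D ^ 2 * (D + 1) ^ 4 = 48 * (D ^ 2 * (D + 1) ^ 4) := by ring
    omega
  have hN3 : U.card + 3 ≤ p + S₁ + q + S₂ := by
    obtain ⟨v, hv⟩ := hUne
    have h1 := deg_add G U v hv
    have h2 := hA v hv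
    have h3 := hB v hv
    omega
  have hNp : U.card ≤ 2 * (D + 1) ^ 2 * p := by
    have h1 : p + q ≤ (2 * D + 2) * p := by nlinarith
    have h2 : U.card ≤ (D + 1) * (p + q) := by nlinarith
    calc U.card ≤ (D + 1) * (p + q) := h2
      _ ≤ (D + 1) * ((2 * D + 2) * p) := Nat.mul_le_mul_left _ h1
      _ = 2 * (D + 1) ^ 2 * p := by ring
  have hNq : U.card ≤ 2 * (D + 1) ^ 2 * q := by
    have h1 : p + q ≤ (2 * D + 2) * q := by nlinarith
    have h2 : U.card ≤ (D + 1) * (p + q) := by nlinarith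
    calc U.card ≤ (D + 1) * (p + q) := h2
      _ ≤ (D + 1) * ((2 * D + 2) * q) := Nat.mul_le_mul_left _ h1
      _ = 2 * (D + 1) ^ 2 * q := by ring
  have hdR : ∀ v ∈ U, U.card ≤ 2 * (D + 1) ^ 2 * dg G U v := by
    intro v hv
    have h1 := deg_add G U v hv
    have h3 := hB v hv
    exact hNp.trans (Nat.mul_le_mul_left _ (by omega))
  have hdB : ∀ v ∈ U, U.card ≤ 2 * (D + 1) ^ 2 * dg Gᶜ U v := by
    intro v hv
    have h1 := deg_add G U v hv
    have h3 := hA v hv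
    exact hNq.trans (Nat.mul_le_mul_left _ (by omega))
  have hNK : 2 * (6 * D ^ 2) * (2 * (D + 1) ^ 2) ^ 2 ≤ U.card := by
    have h1 : 2 * (6 * D ^ 2) * (2 * (D + 1) ^ 2) ^ 2 = 48 * D ^ 2 * (D + 1) ^ 4 := by ring
    omega
  have hrich := rich G Gᶜ U (2 * (D + 1) ^ 2) (6 * D ^ 2) hdR hdB hNK
  have hrich' : ∀ u ∈ U, 6 * D ^ 2 ≤ (U.filter (fun x => 6 * D ^ 2 ≤ rn G Gᶜ U x u)).card := by
    intro u hu
    have h1 := rich Gᶜ G U (2 * (D + 1) ^ 2) (6 * D ^ 2) hdB hdR hNK u hu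
    simpa only [rn_symm G Gᶜ] using h1
  have hp2 : D * (2 * D) ≤ p := by
    have h1 : 2 * (D + 1) ^ 2 * (24 * D ^ 2 * (D + 1) ^ 2) ≤ 2 * (D + 1) ^ 2 * p := by
      have h2 : 2 * (D + 1) ^ 2 * (24 * D ^ 2 * (D + 1) ^ 2) = 48 * D ^ 2 * (D + 1) ^ 4 := by ring
      omega
    have h2 := Nat.le_of_mul_le_mul_left h1 (by positivity)
    nlinarith [Nat.one_le_pow 2 (D + 1) (by omega)]
  have hq2 : D * (2 * D) ≤ q := by
    have h1 : 2 * (D + 1) ^ 2 * (24 * D ^ 2 * (D + 1) ^ 2) ≤ 2 * (D + 1) ^ 2 * q := by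
      have h2 : 2 * (D + 1) ^ 2 * (24 * D ^ 2 * (D + 1) ^ 2) = 48 * D ^ 2 * (D + 1) ^ 4 := by ring
      omega
    have h2 := Nat.le_of_mul_le_mul_left h1 (by positivity)
    nlinarith [Nat.one_le_pow 2 (D + 1) (by omega)]
  obtain ⟨a₀, ha₀1, ha₀D, ha₀⟩ := popular I a D (2 * D) ha hD hp2
  obtain ⟨b₀, hb₀1, hb₀D, hb₀⟩ := popular J b D (2 * D) hb hD hq2
  have hab : a₀ * b₀ ≤ D ^ 2 := by
    rw [pow_two]
    exact Nat.mul_le_mul ha₀D hb₀D
  have hDD : D ≤ D ^ 2 := by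
    rw [pow_two]
    exact Nat.le_mul_of_pos_left D hD
  obtain ⟨W, hWU, hWc, hWR, hWB⟩ := efficient G Gᶜ U (6 * D ^ 2) a₀ b₀ ha₀1 hb₀1 hrich hrich' hUne
    (by omega)
  obtain ⟨I₁, hI₁, hI₁c⟩ := exists_subset_card_eq
    (show 2 * b₀ ≤ (I.filter (fun i => a i = a₀)).card by omega)
  obtain ⟨J₁, hJ₁, hJ₁c⟩ := exists_subset_card_eq
    (show 2 * a₀ ≤ (J.filter (fun j => b j = b₀)).card by omega)
  have hI₁I : I₁ ⊆ I := hI₁.trans (filter_subset _ _)
  have hJ₁J : J₁ ⊆ J := hJ₁.trans (filter_subset _ _)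
  have hI₁a : ∀ i ∈ I₁, a i = a₀ := fun i hi => (mem_filter.1 (hI₁ hi)).2
  have hJ₁b : ∀ j ∈ J₁, b j = b₀ := fun j hj => (mem_filter.1 (hJ₁ hj)).2
  have c1 : (I \ I₁).card + 2 * b₀ = p := by
    rw [← hI₁c, hp]
    exact card_sdiff_add_card_eq_card hI₁I
  have c2 : (J \ J₁).card + 2 * a₀ = q := by
    rw [← hJ₁c, hq]
    exact card_sdiff_add_card_eq_card hJ₁J
  have c3 : ∑ i ∈ I \ I₁, a i + 2 * (a₀ * b₀) = S₁ := by
    rw [hS₁, ← sum_sdiff hI₁I, sum_congr rfl hI₁a, sum_const, hI₁c, smul_eq_mul]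
    ring
  have c4 : ∑ j ∈ J \ J₁, b j + 2 * (a₀ * b₀) = S₂ := by
    rw [hS₂, ← sum_sdiff hJ₁J, sum_congr rfl hJ₁b, sum_const, hJ₁c, smul_eq_mul]
    ring
  have c5 : (U \ W).card + W.card = U.card := card_sdiff_add_card_eq_card hWU
  have c6 : max (∑ i ∈ I \ I₁, a i) (∑ j ∈ J \ J₁, b j) + 2 * (a₀ * b₀) = max S₁ S₂ := by
    rw [← c3, ← c4]
    exact (max_add_add_right _ _ _).symm
  obtain ⟨g, hg⟩ : ∃ g, W.card + 1 + g = 2 * (a₀ * b₀) + 2 * a₀ + 2 * b₀ :=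
    ⟨2 * (a₀ * b₀) + 2 * a₀ + 2 * b₀ - (W.card + 1), by omega⟩
  rcases ih ((I \ I₁).card + (J \ J₁).card) (by omega) (I \ I₁) (J \ J₁) (U \ W) (e + 1 + g) rfl
    (fun i hi => ha i (mem_sdiff.1 hi).1) (fun j hj => hb j (mem_sdiff.1 hj).1) (by omega) (by
      have h1 : 2 * D ^ 2 * (e + 1 + g) = 2 * D ^ 2 * e + 2 * D ^ 2 + 2 * D ^ 2 * g := by ring
      have h2 : 0 ≤ 2 * D ^ 2 * g := Nat.zero_le _
      omega) with h | h
  · left
    have h1 := h.union (hWR a I₁ hI₁c hI₁a) sdiff_disjoint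
    rwa [sdiff_union_of_subset hI₁I, sdiff_union_of_subset hWU] at h1
  · right
    have h1 := h.union (hWB b J₁ hJ₁c hJ₁b) sdiff_disjoint
    rwa [sdiff_union_of_subset hJ₁J, sdiff_union_of_subset hWU] at h1

end Upper

end Pool.Agent.StarM
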