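import Pool.Agent.StarM.Core

/-!
# Star forests with small stars: the efficient set
-/

set_option autoImplicit false

open Finset Pool.Agent.StarF

namespace Pool.Agent.StarM

variable {V : Type}

open Classical in
/-- The number of vertices of `U` joined to `x` in `G` and to `u` in `H`. -/
noncomputable def rn (G H : SimpleGraph V) (U : Finset V) (x u : V) : ℕ :=
  (U.filter (fun z => G.Adj x z ∧ H.Adj u z)).card

open Classical in
lemma rn_symm (G H : SimpleGraph V) (U : Finset V) (x u : V) : rn H G U x u = rn G H U u x := by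
  unfold rn
  apply congrArg
  ext z
  rw [mem_filter, mem_filter]
  tauto

open Classical in
/-- Every vertex has many rich partners. -/
lemma rich (G H : SimpleGraph V) (U : Finset V) (κ K : ℕ)
    (h1 : ∀ v ∈ U, U.card ≤ κ * dg G U v) (h2 : ∀ v ∈ U, U.card ≤ κ * dg H U v)
    (hN : 2 * K * κ ^ 2 ≤ U.card) (x : V) (hx : x ∈ U) :
    K ≤ (U.filter (fun u => K ≤ rn G H U x u)).card := by
  by_contra hcon
  push Not at hcon
  unfold dg at h1 h2
  set N := U.card with hNdef
  have hN1 : 1 ≤ N := card_pos.2 ⟨x, hx⟩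
  have e1 : ∑ u ∈ U, rn G H U x u = ∑ z ∈ U.filter (G.Adj x), (U.filter (H.Adj z)).card := by
    have e2 : ∀ u ∈ U, rn G H U x u = ∑ z ∈ U.filter (G.Adj x), if H.Adj u z then 1 else 0 := by
      intro u _
      unfold rn
      rw [← filter_filter, card_filter]
    have e3 : ∀ z ∈ U.filter (G.Adj x), (U.filter (H.Adj z)).card =
        ∑ u ∈ U, if H.Adj u z then 1 else 0 := by
      intro z _
      rw [card_filter]
      apply sum_congr rfl
      intro u _
      simp only [H.adj_comm z u]
    rw [sum_congr rfl e2, sum_congr rfl e3, sum_comm]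
  have lower : N * N ≤ κ ^ 2 * ∑ u ∈ U, rn G H U x u := by
    rw [e1]
    have e4 : (U.filter (G.Adj x)).card * N ≤
        κ * ∑ z ∈ U.filter (G.Adj x), (U.filter (H.Adj z)).card := by
      rw [mul_sum, ← smul_eq_mul, ← sum_const]
      apply sum_le_sum
      intro z hz
      exact h2 z (mem_filter.1 hz).1
    calc N * N ≤ (κ * (U.filter (G.Adj x)).card) * N := Nat.mul_le_mul_right _ (h1 x hx)
      _ = κ * ((U.filter (G.Adj x)).card * N) := by ring
      _ ≤ κ * (κ * ∑ z ∈ U.filter (G.Adj x), (U.filter (H.Adj z)).card) :=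
          Nat.mul_le_mul_left _ e4
      _ = κ ^ 2 * ∑ z ∈ U.filter (G.Adj x), (U.filter (H.Adj z)).card := by ring
  have upper : ∑ u ∈ U, rn G H U x u ≤
      (U.filter (fun u => K ≤ rn G H U x u)).card * N + N * (K - 1) := by
    rw [← sum_filter_add_sum_filter_not U (fun u => K ≤ rn G H U x u)]
    apply Nat.add_le_add
    · rw [← smul_eq_mul, ← sum_const]
      apply sum_le_sum
      intro u _
      exact card_le_card (filter_subset _ _)
    · calc ∑ u ∈ U.filter (fun u => ¬ K ≤ rn G H U x u), rn G H U x u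
          ≤ ∑ _u ∈ U.filter (fun u => ¬ K ≤ rn G H U x u), (K - 1) := by
            apply sum_le_sum
            intro u hu
            have := (mem_filter.1 hu).2
            omega
        _ = (U.filter (fun u => ¬ K ≤ rn G H U x u)).card * (K - 1) := by
            rw [sum_const, smul_eq_mul]
        _ ≤ N * (K - 1) := Nat.mul_le_mul_right _ (card_le_card (filter_subset _ _))
  have hK : 1 ≤ K := by omega
  obtain ⟨k, rfl⟩ : ∃ k, K = k + 1 := ⟨K - 1, by omega⟩
  simp only [Nat.add_sub_cancel] at upper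
  have h3 : (U.filter (fun u => k + 1 ≤ rn G H U x u)).card ≤ k := by omega
  have h4 : ∑ u ∈ U, rn G H U x u ≤ 2 * k * N := by
    calc ∑ u ∈ U, rn G H U x u ≤
        (U.filter (fun u => k + 1 ≤ rn G H U x u)).card * N + N * k := upper
      _ ≤ k * N + N * k := Nat.add_le_add_right (Nat.mul_le_mul_right _ h3) _
      _ = 2 * k * N := by ring
  have h5 : N * N ≤ (2 * k * κ ^ 2) * N := by
    calc N * N ≤ κ ^ 2 * ∑ u ∈ U, rn G H U x u := lower
      _ ≤ κ ^ 2 * (2 * k * N) := Nat.mul_le_mul_left _ h4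
      _ = (2 * k * κ ^ 2) * N := by ring
  have h6 : N ≤ 2 * k * κ ^ 2 := Nat.le_of_mul_le_mul_right h5 hN1
  have h7 : 2 * (k + 1) * κ ^ 2 = 2 * k * κ ^ 2 + 2 * κ ^ 2 := by ring
  have h8 : 1 ≤ κ := by
    by_contra h9
    have h10 : κ = 0 := by omega
    have := h1 x hx
    rw [h10] at this
    omega
  have h9 : 1 ≤ κ ^ 2 := Nat.one_le_pow _ _ h8
  omega

open Classical in
/-- Greedy choice of different vertices. -/
lemma greedy (K M : ℕ) (F : Finset V) (x : V) (Cand : ℕ → (ℕ → V) → Finset V)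
    (hdep : ∀ s w w', (∀ r < s, w r = w' r) → Cand s w = Cand s w')
    (hcard : ∀ s, 1 ≤ s → s < M → ∀ w : ℕ → V, w 0 = x →
      (∀ r, 1 ≤ r → r < s → w r ∈ Cand r w) → K ≤ (Cand s w).card)
    (hK : F.card + M ≤ K) (m : ℕ) (hm : 1 ≤ m) (hmM : m ≤ M) :
    ∃ w : ℕ → V, w 0 = x ∧ (∀ r, 1 ≤ r → r < m → w r ∈ Cand r w) ∧
      (∀ r, 1 ≤ r → r < m → w r ∉ F) ∧ Set.InjOn w (Set.Iio m) := by
  induction m, hm using Nat.le_induction with
  | base =>
    refine ⟨fun _ => x, rfl, fun r h1 h2 => by omega, fun r h1 h2 => by omega, ?_⟩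
    intro i hi j hj _
    rw [Set.mem_Iio] at hi hj
    omega
  | succ m hm ih =>
    obtain ⟨w, h0, h1, h2, h3⟩ := ih (by omega)
    have h4 := hcard m hm (by omega) w h0 h1
    have h5 : (F ∪ (range m).image w).card < (Cand m w).card := by
      have h6 := card_union_le F ((range m).image w)
      have h7 := card_image_le (s := range m) (f := w)
      rw [card_range] at h7
      omega
    obtain ⟨v, hv, hv'⟩ := exists_mem_notMem_of_card_lt_card h5
    rw [mem_union, not_or] at hv'
    have hlt : ∀ r, r < m → Function.update w m v r = w r := fun r hr =>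
      Function.update_of_ne (by omega) _ _
    have hself : Function.update w m v m = v := Function.update_self _ _ _
    refine ⟨Function.update w m v, ?_, ?_, ?_, ?_⟩
    · rw [hlt 0 (by omega), h0]
    · intro r hr1 hr2
      rcases Nat.lt_succ_iff_lt_or_eq.1 hr2 with hr | rfl
      · rw [hlt r hr, hdep r (Function.update w m v) w (fun s hs => hlt s (by omega))]
        exact h1 r hr1 hr
      · rw [hself, hdep r (Function.update w r v) w (fun s hs => hlt s hs)]
        exact hv
    · intro r hr1 hr2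
      rcases Nat.lt_succ_iff_lt_or_eq.1 hr2 with hr | rfl
      · rw [hlt r hr]
        exact h2 r hr1 hr
      · rw [hself]
        exact hv'.1
    · intro i hi j hj hij
      rw [Set.mem_Iio] at hi hj
      rcases Nat.lt_succ_iff_lt_or_eq.1 hi with hi | rfl <;>
        rcases Nat.lt_succ_iff_lt_or_eq.1 hj with hj | rfl
      · rw [hlt i hi, hlt j hj] at hij
        exact h3 (Set.mem_Iio.2 hi) (Set.mem_Iio.2 hj) hij
      · exfalso
        rw [hlt i hi, hself] at hij
        exact hv'.2 (mem_image.2 ⟨i, mem_range.2 hi, hij⟩)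
      · exfalso
        rw [hlt j hj, hself] at hij
        exact hv'.2 (mem_image.2 ⟨j, mem_range.2 hj, hij.symm⟩)
      · rfl

/-- The position of a member of a finite set of numbers. -/
def pos (I : Finset ℕ) (i : ℕ) : ℕ := (I.filter (· < i)).card

lemma pos_lt {I : Finset ℕ} {i : ℕ} (hi : i ∈ I) : pos I i < I.card := by
  apply card_lt_card
  rw [ssubset_iff_of_subset (filter_subset _ _)]
  exact ⟨i, hi, by simp⟩

lemma pos_inj {I : Finset ℕ} {i j : ℕ} (hi : i ∈ I) (hj : j ∈ I) (h : pos I i = pos I j) :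
    i = j := by
  have key : ∀ i ∈ I, ∀ j ∈ I, i < j → pos I i < pos I j := by
    intro i hi j hj hij
    apply card_lt_card
    rw [ssubset_iff_of_subset]
    · exact ⟨i, mem_filter.2 ⟨hi, hij⟩, by simp⟩
    · intro t ht
      rw [mem_filter] at ht ⊢
      exact ⟨ht.1, ht.2.trans hij⟩
  rcases lt_trichotomy i j with h1 | h1 | h1
  · exact absurd h (key i hi j hj h1).ne
  · exact h1
  · exact absurd h.symm (key j hj i hi h1).ne

/-- Stars from a sequence of different vertices. -/
lemma has_of_seq (H : SimpleGraph V) (w : ℕ → V) (M a n : ℕ) (cen : ℕ → ℕ) (T : Finset V)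
    (hinj : Set.InjOn w (Set.Iio M)) (hcen : ∀ i < n, cen i < M ∧ cen i % 3 ≠ 2)
    (hceninj : ∀ i < n, ∀ j < n, cen i = cen j → i = j) (hM : 3 * (a * n) ≤ M)
    (hadj : ∀ i < n, ∀ r < a, H.Adj (w (cen i)) (w (3 * (a * i + r) + 2)))
    (hT : ∀ i < n, w (cen i) ∈ T ∧ ∀ r < a, w (3 * (a * i + r) + 2) ∈ T)
    (A : ℕ → ℕ) (I : Finset ℕ) (hI : I.card = n) (hA : ∀ i ∈ I, A i = a) : Has H A I T := by
  classical
  have hlt : ∀ i < n, ∀ r < a, a * i + r < a * n := by
    intro i hi r hr
    calc a * i + r < a * i + a := by omega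
      _ = a * (i + 1) := by ring
      _ ≤ a * n := Nat.mul_le_mul_left _ hi
  have hltM : ∀ i < n, ∀ r < a, 3 * (a * i + r) + 2 < M := by
    intro i hi r hr
    have := hlt i hi r hr
    omega
  have hdiv : ∀ i r, r < a → (a * i + r) / a = i := by
    intro i r hr
    rw [Nat.mul_add_div (by omega), Nat.div_eq_of_lt hr, add_zero]
  refine ⟨fun i => w (cen (pos I i)),
    fun i => (range a).image (fun r => w (3 * (a * pos I i + r) + 2)), ?_, ?_⟩
  · intro i hi
    have hp : pos I i < n := hI ▸ pos_lt hi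
    refine ⟨?_, ?_, ?_⟩
    · intro z hz
      rcases mem_insert.1 hz with rfl | hz
      · exact (hT _ hp).1
      · rw [mem_image] at hz
        obtain ⟨r, hr, rfl⟩ := hz
        exact (hT _ hp).2 r (mem_range.1 hr)
    · have h1 : ((range a).image (fun r => w (3 * (a * pos I i + r) + 2))).card = a := by
        rw [card_image_of_injOn, card_range]
        intro r hr s hs hrs
        rw [mem_coe, mem_range] at hr hs
        have := hinj (Set.mem_Iio.2 (hltM _ hp r hr)) (Set.mem_Iio.2 (hltM _ hp s hs)) hrs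
        omega
      exact h1.trans (hA i hi).symm
    · intro z hz
      rw [mem_image] at hz
      obtain ⟨r, hr, rfl⟩ := hz
      exact hadj _ hp r (mem_range.1 hr)
  · intro i hi j hj hij
    have hp : pos I i < n := hI ▸ pos_lt hi
    have hq : pos I j < n := hI ▸ pos_lt hj
    have hpq : pos I i ≠ pos I j := fun h => hij (pos_inj hi hj h)
    rw [Finset.disjoint_left]
    intro z hz hz'
    rcases mem_insert.1 hz with rfl | hz
    · rcases mem_insert.1 hz' with hz' | hz'
      · have := hinj (Set.mem_Iio.2 (hcen _ hp).1) (Set.mem_Iio.2 (hcen _ hq).1) hz'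
        exact hpq (hceninj _ hp _ hq this)
      · rw [mem_image] at hz'
        obtain ⟨r, hr, hz'⟩ := hz'
        have := hinj (Set.mem_Iio.2 (hltM _ hq r (mem_range.1 hr)))
          (Set.mem_Iio.2 (hcen _ hp).1) hz'
        have := (hcen _ hp).2
        omega
    · rw [mem_image] at hz
      obtain ⟨r, hr, rfl⟩ := hz
      rw [mem_range] at hr
      rcases mem_insert.1 hz' with hz' | hz'
      · have := hinj (Set.mem_Iio.2 (hltM _ hp r hr)) (Set.mem_Iio.2 (hcen _ hq).1) hz'
        have := (hcen _ hq).2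
        omega
      · rw [mem_image] at hz'
        obtain ⟨s, hs, hz'⟩ := hz'
        rw [mem_range] at hs
        have h1 := hinj (Set.mem_Iio.2 (hltM _ hq s hs)) (Set.mem_Iio.2 (hltM _ hp r hr)) hz'
        have h2 : a * pos I j + s = a * pos I i + r := by omega
        apply hpq
        rw [← hdiv (pos I i) r hr, ← h2, hdiv (pos I j) s hs]

open Classical in
/-- One half of the efficient set. -/
lemma seq (G H : SimpleGraph V) (U : Finset V) (K a b : ℕ) (ha : 1 ≤ a) (hb : 1 ≤ b)
    (hr : ∀ x ∈ U, K ≤ (U.filter (fun u => K ≤ rn G H U x u)).card)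
    (hr' : ∀ u ∈ U, K ≤ (U.filter (fun x => K ≤ rn G H U x u)).card)
    (x : V) (hx : x ∈ U) (F : Finset V) (hxF : x ∉ F) (hF : F.card + 3 * (a * b) ≤ K) :
    ∃ W ⊆ U, x ∈ W ∧ Disjoint W F ∧ W.card ≤ a * b + a + b ∧
      (∀ (A : ℕ → ℕ) (I : Finset ℕ), I.card = b → (∀ i ∈ I, A i = a) → Has G A I W) ∧
      (∀ (B : ℕ → ℕ) (J : Finset ℕ), J.card = a → (∀ j ∈ J, B j = b) →
        Has H B J (W.erase x)) := by
  have hab : 1 ≤ a * b := Nat.mul_le_mul ha hb
  -- the candidates
  let Cand : ℕ → (ℕ → V) → Finset V := fun s w =>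
    if s % 3 = 0 then
      (if a ∣ s / 3 ∧ ¬ b ∣ s / 3 then
        U.filter (fun v => K ≤ rn G H U v (w (3 * (b * (s / 3 / b)) + 1))) else U)
    else if s % 3 = 1 then
      (if b ∣ s / 3 then U.filter (fun v => K ≤ rn G H U (w (3 * (a * (s / 3 / a)))) v) else U)
    else U.filter (fun z => G.Adj (w (3 * (a * (s / 3 / a)))) z ∧
      H.Adj (w (3 * (b * (s / 3 / b)) + 1)) z)
  have hC0 : ∀ t w, Cand (3 * t) w = if a ∣ t ∧ ¬ b ∣ t then
      U.filter (fun v => K ≤ rn G H U v (w (3 * (b * (t / b)) + 1))) else U := by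
    intro t w
    have h1 : 3 * t % 3 = 0 := by omega
    have h2 : 3 * t / 3 = t := by omega
    simp only [Cand, h1, h2, if_true]
  have hC1 : ∀ t w, Cand (3 * t + 1) w = if b ∣ t then
      U.filter (fun v => K ≤ rn G H U (w (3 * (a * (t / a)))) v) else U := by
    intro t w
    have h1 : (3 * t + 1) % 3 = 1 := by omega
    have h2 : (3 * t + 1) / 3 = t := by omega
    simp only [Cand, h1, h2, if_true, one_ne_zero, if_false]
  have hC2 : ∀ t w, Cand (3 * t + 2) w = U.filter (fun z => G.Adj (w (3 * (a * (t / a)))) z ∧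
      H.Adj (w (3 * (b * (t / b)) + 1)) z) := by
    intro t w
    have h1 : (3 * t + 2) % 3 = 2 := by omega
    have h2 : (3 * t + 2) / 3 = t := by omega
    have h3 : (2 : ℕ) ≠ 0 := by omega
    have h4 : (2 : ℕ) ≠ 1 := by omega
    simp only [Cand, h1, h2, if_neg h3, if_neg h4]
  have hle : ∀ n t : ℕ, n * (t / n) ≤ t := fun n t => Nat.mul_div_le t n
  have hltd : ∀ t, ¬ b ∣ t → b * (t / b) < t := by
    intro t h
    rcases lt_or_eq_of_le (hle b t) with h1 | h1
    · exact h1
    · exact absurd ⟨t / b, h1.symm⟩ h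
  have hsplit : ∀ s : ℕ, ∃ t, s = 3 * t ∨ s = 3 * t + 1 ∨ s = 3 * t + 2 := fun s =>
    ⟨s / 3, by omega⟩
  have hCU : ∀ s w, Cand s w ⊆ U := by
    intro s w
    obtain ⟨t, rfl | rfl | rfl⟩ := hsplit s
    · rw [hC0]
      split_ifs
      · exact filter_subset _ _
      · exact Subset.rfl
    · rw [hC1]
      split_ifs
      · exact filter_subset _ _
      · exact Subset.rfl
    · rw [hC2]
      exact filter_subset _ _
  have hdep : ∀ s w w', (∀ r < s, w r = w' r) → Cand s w = Cand s w' := by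
    intro s w w' h
    obtain ⟨t, rfl | rfl | rfl⟩ := hsplit s
    · rw [hC0, hC0]
      split_ifs with h1
      · rw [h (3 * (b * (t / b)) + 1) (by have := hltd t h1.2; omega)]
      · rfl
    · rw [hC1, hC1]
      split_ifs with h1
      · rw [h (3 * (a * (t / a))) (by have := hle a t; omega)]
      · rfl
    · rw [hC2, hC2, h (3 * (a * (t / a))) (by have := hle a t; omega),
        h (3 * (b * (t / b)) + 1) (by have := hle b t; omega)]
  have hUK : K ≤ U.card := (hr x hx).trans (card_le_card (filter_subset _ _))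
  -- consecutive centres are rich
  have hrich : ∀ (t : ℕ) (w : ℕ → V), w 0 = x →
      (∀ r, 1 ≤ r → r < 3 * t + 2 → w r ∈ Cand r w) →
      K ≤ rn G H U (w (3 * (a * (t / a)))) (w (3 * (b * (t / b)) + 1)) := by
    intro t w h0 hw
    have hα := hle a t
    have hβ := hle b t
    rcases le_or_gt (a * (t / a)) (b * (t / b)) with h1 | h1
    · have h2 := hw (3 * (b * (t / b)) + 1) (by omega) (by omega)
      rw [hC1, if_pos (Dvd.intro _ rfl), mem_filter] at h2
      have h3 : b * (t / b) / a = t / a := by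
        apply le_antisymm
        · exact Nat.div_le_div_right hβ
        · rw [Nat.le_div_iff_mul_le (by omega), mul_comm]
          exact h1
      rw [h3] at h2
      exact h2.2
    · have h4 : a * (t / a) / b = t / b := by
        apply le_antisymm
        · exact Nat.div_le_div_right hα
        · rw [Nat.le_div_iff_mul_le (by omega), mul_comm]
          exact h1.le
      have h5 : ¬ b ∣ a * (t / a) := by
        rintro ⟨m, hm⟩
        have h6 : a * (t / a) / b = m := by
          rw [hm, Nat.mul_div_cancel_left _ (by omega)]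
        rw [h4] at h6
        rw [hm, h6] at h1
        exact lt_irrefl _ h1
      have h2 := hw (3 * (a * (t / a))) (by omega) (by omega)
      rw [hC0, if_pos ⟨Dvd.intro _ rfl, h5⟩, mem_filter, h4] at h2
      exact h2.2
  have hwU : ∀ (s : ℕ) (w : ℕ → V), w 0 = x → (∀ r, 1 ≤ r → r < s → w r ∈ Cand r w) →
      ∀ r < s, w r ∈ U := by
    intro s w h0 hw r hr
    rcases Nat.eq_zero_or_pos r with rfl | h1
    · rw [h0]
      exact hx
    · exact hCU _ _ (hw r h1 hr)
  have hcard : ∀ s, 1 ≤ s → s < 3 * (a * b) → ∀ w : ℕ → V, w 0 = x →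
      (∀ r, 1 ≤ r → r < s → w r ∈ Cand r w) → K ≤ (Cand s w).card := by
    intro s hs1 hs2 w h0 hw
    have hU := hwU s w h0 hw
    obtain ⟨t, rfl | rfl | rfl⟩ := hsplit s
    · rw [hC0]
      split_ifs with h1
      · exact hr' _ (hU _ (by have := hltd t h1.2; omega))
      · exact hUK
    · rw [hC1]
      split_ifs with h1
      · exact hr _ (hU _ (by have := hle a t; omega))
      · exact hUK
    · rw [hC2]
      exact hrich t w h0 hw
  obtain ⟨w, h0, hw, hwF, hinj⟩ := greedy K (3 * (a * b)) F x Cand hdep hcard hF (3 * (a * b))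
    (by omega) le_rfl
  have hU := hwU (3 * (a * b)) w h0 hw
  set Idx : Finset ℕ := (range b).image (fun i => 3 * (a * i)) ∪
    ((range a).image (fun j => 3 * (b * j) + 1) ∪
      (range (a * b)).image (fun t => 3 * t + 2)) with hIdx
  have hmul : ∀ n i m : ℕ, i < m → n * i + n ≤ n * m := by
    intro n i m h
    calc n * i + n = n * (i + 1) := by ring
      _ ≤ n * m := Nat.mul_le_mul_left _ h
  have hIX : ∀ i < b, 3 * (a * i) < 3 * (a * b) := by
    intro i hi
    have := hmul a i b hi
    omega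
  have hIY : ∀ j < a, 3 * (b * j) + 1 < 3 * (a * b) := by
    intro j hj
    have := hmul b j a hj
    have h1 : b * a = a * b := mul_comm _ _
    omega
  have hIdxlt : ∀ s ∈ Idx, s < 3 * (a * b) := by
    intro s hs
    rw [hIdx, mem_union, mem_union, mem_image, mem_image, mem_image] at hs
    rcases hs with ⟨i, hi, rfl⟩ | ⟨j, hj, rfl⟩ | ⟨t, ht, rfl⟩
    · exact hIX i (mem_range.1 hi)
    · exact hIY j (mem_range.1 hj)
    · have := mem_range.1 ht
      omega
  have hZadj : ∀ t < a * b, G.Adj (w (3 * (a * (t / a)))) (w (3 * t + 2)) ∧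
      H.Adj (w (3 * (b * (t / b)) + 1)) (w (3 * t + 2)) := by
    intro t ht
    have h1 := hw (3 * t + 2) (by omega) (by omega)
    rw [hC2, mem_filter] at h1
    exact h1.2
  have hdiv : ∀ n i r : ℕ, r < n → (n * i + r) / n = i := by
    intro n i r hr
    rw [Nat.mul_add_div (by omega), Nat.div_eq_of_lt hr, add_zero]
  have hXmem : ∀ i < b, 3 * (a * i) ∈ Idx := by
    intro i hi
    rw [hIdx, mem_union]
    left
    exact mem_image.2 ⟨i, mem_range.2 hi, rfl⟩
  have hYmem : ∀ j < a, 3 * (b * j) + 1 ∈ Idx := by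
    intro j hj
    rw [hIdx, mem_union, mem_union]
    right; left
    exact mem_image.2 ⟨j, mem_range.2 hj, rfl⟩
  have hZmem : ∀ t < a * b, 3 * t + 2 ∈ Idx := by
    intro t ht
    rw [hIdx, mem_union, mem_union]
    right; right
    exact mem_image.2 ⟨t, mem_range.2 ht, rfl⟩
  refine ⟨Idx.image w, ?_, ?_, ?_, ?_, ?_, ?_⟩
  · intro z hz
    rw [mem_image] at hz
    obtain ⟨s, hs, rfl⟩ := hz
    exact hU s (hIdxlt s hs)
  · rw [mem_image]
    refine ⟨0, ?_, h0⟩
    have := hXmem 0 (by omega)
    simpa using this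
  · rw [Finset.disjoint_left]
    intro z hz
    rw [mem_image] at hz
    obtain ⟨s, hs, rfl⟩ := hz
    rcases Nat.eq_zero_or_pos s with rfl | h1
    · rw [h0]
      exact hxF
    · exact hwF s h1 (hIdxlt s hs)
  · have h1 : (Idx.image w).card ≤ Idx.card := card_image_le
    have h2 : Idx.card ≤ b + (a + a * b) := by
      rw [hIdx]
      refine (card_union_le _ _).trans (Nat.add_le_add ?_ ((card_union_le _ _).trans
        (Nat.add_le_add ?_ ?_)))
      · exact card_image_le.trans (card_range _).le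
      · exact card_image_le.trans (card_range _).le
      · exact card_image_le.trans (card_range _).le
    omega
  · intro A I hI hA
    apply has_of_seq G w (3 * (a * b)) a b (fun i => 3 * (a * i)) (Idx.image w) hinj
    · intro i hi
      exact ⟨hIX i hi, by omega⟩
    · intro i _ j _ hij
      exact Nat.eq_of_mul_eq_mul_left ha (by omega)
    · exact le_rfl
    · intro i hi r hr
      have h1 : a * i + r < a * b := by
        have := hmul a i b hi
        omega
      have h2 := (hZadj (a * i + r) h1).1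
      rw [hdiv a i r hr] at h2
      exact h2
    · intro i hi
      refine ⟨mem_image_of_mem w (hXmem i hi), fun r hr => mem_image_of_mem w (hZmem _ ?_)⟩
      have := hmul a i b hi
      omega
    · exact hI
    · exact hA
  · intro B J hJ hB
    have hba : b * a = a * b := mul_comm _ _
    have hne : ∀ s ∈ Idx, s ≠ 0 → w s ∈ (Idx.image w).erase x := by
      intro s hs hs0
      rw [mem_erase]
      refine ⟨?_, mem_image_of_mem w hs⟩
      rw [← h0]
      intro h1
      exact hs0 (hinj (Set.mem_Iio.2 (hIdxlt s hs)) (Set.mem_Iio.2 (by omega)) h1)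
    apply has_of_seq H w (3 * (a * b)) b a (fun j => 3 * (b * j) + 1) ((Idx.image w).erase x) hinj
    · intro j hj
      exact ⟨hIY j hj, by omega⟩
    · intro i _ j _ hij
      exact Nat.eq_of_mul_eq_mul_left hb (by omega)
    · rw [hba]
    · intro j hj r hr
      have h1 : b * j + r < a * b := by
        have := hmul b j a hj
        omega
      have h2 := (hZadj (b * j + r) h1).2
      rw [hdiv b j r hr] at h2
      exact h2
    · intro j hj
      refine ⟨hne _ (hYmem j hj) (by omega), fun r hr => hne _ (hZmem _ ?_) (by omega)⟩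
      have := hmul b j a hj
      omega
    · exact hJ
    · exact hB

open Classical in
/-- The efficient set. -/
lemma efficient (G H : SimpleGraph V) (U : Finset V) (K a b : ℕ) (ha : 1 ≤ a) (hb : 1 ≤ b)
    (hr : ∀ x ∈ U, K ≤ (U.filter (fun u => K ≤ rn G H U x u)).card)
    (hr' : ∀ u ∈ U, K ≤ (U.filter (fun x => K ≤ rn G H U x u)).card)
    (hne : U.Nonempty) (hK : 4 * (a * b) + a + b ≤ K) :
    ∃ W ⊆ U, W.card + 1 ≤ 2 * (a * b) + 2 * a + 2 * b ∧
      (∀ (A : ℕ → ℕ) (I : Finset ℕ), I.card = 2 * b → (∀ i ∈ I, A i = a) → Has G A I W) ∧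
      (∀ (B : ℕ → ℕ) (J : Finset ℕ), J.card = 2 * a → (∀ j ∈ J, B j = b) → Has H B J W) := by
  obtain ⟨x, hx⟩ := hne
  obtain ⟨W₁, hW₁U, hx₁, -, hc₁, hR₁, hB₁⟩ := seq G H U K a b ha hb hr hr' x hx ∅ (by simp)
    (by rw [card_empty]; omega)
  have hba : b * a = a * b := mul_comm _ _
  obtain ⟨W₂, hW₂U, hx₂, hd₂, hc₂, hB₂, hR₂⟩ := seq H G U K b a hb ha
    (by intro u hu; simpa only [rn_symm G H] using hr' u hu)
    (by intro u hu; simpa only [rn_symm G H] using hr u hu) x hx (W₁.erase x) (by simp)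
    (by rw [card_erase_of_mem hx₁, hba]; omega)
  rw [hba] at hc₂
  have hsplit : ∀ (I : Finset ℕ) (n : ℕ), I.card = 2 * n →
      ∃ I₁ ⊆ I, ∃ I₂ ⊆ I, I₁.card = n ∧ I₂.card = n ∧ I₁ ∪ I₂ = I := by
    intro I n hI
    obtain ⟨I₁, hI₁, hI₁c⟩ := exists_subset_card_eq (show n ≤ I.card by omega)
    refine ⟨I₁, hI₁, I \ I₁, sdiff_subset, hI₁c, ?_, ?_⟩
    · rw [card_sdiff_of_subset hI₁]
      omega
    · exact union_sdiff_of_subset hI₁
  refine ⟨W₁ ∪ W₂, union_subset hW₁U hW₂U, ?_, ?_, ?_⟩
  · have h1 := card_union_add_card_inter W₁ W₂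
    have h2 : 1 ≤ (W₁ ∩ W₂).card := card_pos.2 ⟨x, mem_inter.2 ⟨hx₁, hx₂⟩⟩
    omega
  · intro A I hI hA
    obtain ⟨I₁, h1, I₂, h2, h3, h4, h5⟩ := hsplit I b hI
    rw [← h5]
    have h6 := hR₁ A I₁ h3 (fun i hi => hA i (h1 hi))
    have h7 := hR₂ A I₂ h4 (fun i hi => hA i (h2 hi))
    apply (h6.union h7 ?_).mono
    · exact union_subset_union Subset.rfl (erase_subset _ _)
    · rw [Finset.disjoint_left]
      intro z hz hz'
      rw [mem_erase] at hz'
      exact Finset.disjoint_left.1 hd₂ hz'.2 (mem_erase.2 ⟨hz'.1, hz⟩)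
  · intro B J hJ hB
    obtain ⟨J₁, h1, J₂, h2, h3, h4, h5⟩ := hsplit J a hJ
    rw [← h5]
    have h6 := hB₁ B J₁ h3 (fun i hi => hB i (h1 hi))
    have h7 := hB₂ B J₂ h4 (fun i hi => hB i (h2 hi))
    apply (h6.union h7 ?_).mono
    · exact union_subset_union (erase_subset _ _) Subset.rfl
    · exact hd₂.symm

end Pool.Agent.StarM
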